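import Pool.Agent.Helper34.PN.AVG

/-!
Points outside the revealed set stay almost unbiased (row FRESH of the linear net project).
-/

namespace Pool.Agent.Helper34.PN

open Finset

theorem fresh_prod {α : Type} [DecidableEq α] (Z : Finset α) (m : α → ℝ) :
    ∑ Y ∈ Z.powerset,
        Real.exp (∑ x ∈ Z, (m x * (if x ∈ Y then (1 : ℝ) else -1) - m x ^ 2 / 2))
      ≤ (2 : ℝ) ^ Z.card := by
  have h1 : ∀ Y ∈ Z.powerset,
      Real.exp (∑ x ∈ Z, (m x * (if x ∈ Y then (1 : ℝ) else -1) - m x ^ 2 / 2))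
        = (∏ x ∈ Y, Real.exp (m x - m x ^ 2 / 2))
          * ∏ x ∈ Z \ Y, Real.exp (-m x - m x ^ 2 / 2) := by
    intro Y hY
    have hY' := mem_powerset.1 hY
    rw [← Real.exp_sum, ← Real.exp_sum, ← Real.exp_add]
    refine congrArg Real.exp ?_
    rw [← sum_sdiff hY', add_comm]
    refine congrArg₂ (· + ·) ?_ ?_
    · exact sum_congr rfl fun x hx => by rw [if_pos hx, mul_one]
    · exact sum_congr rfl fun x hx => by rw [if_neg (mem_sdiff.1 hx).2]; ring
  rw [sum_congr rfl h1, ← prod_add]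
  calc ∏ x ∈ Z, (Real.exp (m x - m x ^ 2 / 2) + Real.exp (-m x - m x ^ 2 / 2))
      ≤ ∏ x ∈ Z, (2 : ℝ) := by
        refine prod_le_prod (fun x _ => by positivity) fun x _ => ?_
        have h2 := Real.cosh_le_exp_half_sq (m x)
        rw [Real.cosh_eq] at h2
        have h3 : Real.exp (m x - m x ^ 2 / 2) + Real.exp (-m x - m x ^ 2 / 2)
            = (Real.exp (m x) + Real.exp (-m x)) / 2 * (2 * Real.exp (-(m x ^ 2 / 2))) := by
          rw [sub_eq_add_neg, sub_eq_add_neg, Real.exp_add, Real.exp_add]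
          ring
        rw [h3]
        have h4 : Real.exp (m x ^ 2 / 2) * Real.exp (-(m x ^ 2 / 2)) = 1 := by
          rw [← Real.exp_add]
          simp
        nlinarith [Real.exp_pos (-(m x ^ 2 / 2))]
    _ = (2 : ℝ) ^ Z.card := by rw [prod_const]

theorem fresh_exp : (3 : ℝ) ≤ Real.exp (5 / 4) := by
  have h1 : Real.exp (5 / 4) = Real.exp 1 * Real.exp (1 / 4) := by
    rw [← Real.exp_add]
    norm_num
  rw [h1]
  have h2 := Real.exp_one_gt_d9
  have h3 : (1 / 4 : ℝ) + 1 ≤ Real.exp (1 / 4) := Real.add_one_le_exp _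
  nlinarith

theorem fresh {α : Type} [DecidableEq α] (Z W : Finset α) (hW : W ⊆ Z)
    (s : ↥(Z.powerset) → α → Fin 3) :
    ∑ x ∈ Z \ W, ∑ ω : ↥(Z.powerset),
        (avg s W (fun ω' => if x ∈ ω'.1 then (1 : ℝ) else -1) ω) ^ 2
      ≤ (5 / 2 : ℝ) * (W.card : ℝ) * (Fintype.card ↥(Z.powerset) : ℝ) := by
  have hcard : (Fintype.card ↥(Z.powerset) : ℝ) = (2 : ℝ) ^ Z.card := by
    rw [Fintype.card_coe, card_powerset]
    push_cast
    rfl
  -- signs, conditional means and the exponent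
  let χ : α → ↥(Z.powerset) → ℝ := fun x ω' => if x ∈ ω'.1 then (1 : ℝ) else -1
  let v : α → ↥(Z.powerset) → ℝ := fun x ω => avg s W (χ x) ω
  let g : ↥(Z.powerset) → ℝ := fun ω =>
    ∑ x ∈ Z \ W, (v x ω * χ x ω - v x ω ^ 2 / 2)
  have hv : ∀ x, ∀ ω ω' : ↥(Z.powerset), (∀ y ∈ W, s ω' y = s ω y) → v x ω' = v x ω :=
    fun x ω ω' h => avg_meas s W (χ x) ω ω' h
  have hg : ∑ ω : ↥(Z.powerset), g ω
      = (1 / 2 : ℝ) * ∑ x ∈ Z \ W, ∑ ω : ↥(Z.powerset), v x ω ^ 2 := by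
    show ∑ ω : ↥(Z.powerset), ∑ x ∈ Z \ W, (v x ω * χ x ω - v x ω ^ 2 / 2) = _
    rw [sum_comm, mul_sum]
    refine sum_congr rfl fun x _ => ?_
    have h1 : ∑ ω : ↥(Z.powerset), v x ω * v x ω = ∑ ω : ↥(Z.powerset), χ x ω * v x ω :=
      avg_orth s W (χ x) (v x) (hv x)
    have h2 : ∑ ω : ↥(Z.powerset), v x ω * χ x ω = ∑ ω : ↥(Z.powerset), v x ω ^ 2 := by
      rw [sum_congr rfl fun ω _ => mul_comm (v x ω) (χ x ω), ← h1]
      exact sum_congr rfl fun ω _ => by ring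
    rw [sum_sub_distrib, h2, ← sum_div]
    ring
  -- one class
  have hone : ∀ ω₀ : ↥(Z.powerset), ∑ ω : ↥(Z.powerset),
      Real.exp (∑ x ∈ Z \ W, (v x ω₀ * χ x ω - v x ω₀ ^ 2 / 2)) ≤ (2 : ℝ) ^ Z.card := by
    intro ω₀
    let m : α → ℝ := fun x => if x ∈ W then 0 else v x ω₀
    have h1 := fresh_prod Z m
    rw [← sum_coe_sort Z.powerset] at h1
    refine le_trans (le_of_eq ?_) h1
    refine sum_congr rfl fun ω _ => congrArg Real.exp ?_
    rw [← sum_sdiff hW]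
    have h2 : ∑ x ∈ W, (m x * (if x ∈ ω.1 then (1 : ℝ) else -1) - m x ^ 2 / 2) = 0 := by
      refine sum_eq_zero fun x hx => ?_
      have h3 : m x = 0 := if_pos hx
      rw [h3]
      ring
    rw [h2, add_zero]
    refine sum_congr rfl fun x hx => ?_
    have h3 : m x = v x ω₀ := if_neg (mem_sdiff.1 hx).2
    rw [h3]
  -- all classes
  have hall : ∑ ω : ↥(Z.powerset), Real.exp (g ω) ≤ (3 : ℝ) ^ W.card * (2 : ℝ) ^ Z.card := by
    classical
    let r : ↥(Z.powerset) → (↥W → Fin 3) := fun ω x => s ω x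
    rw [← sum_fiberwise (Finset.univ : Finset ↥(Z.powerset)) r (fun ω => Real.exp (g ω))]
    have h1 : ∀ f ∈ (Finset.univ : Finset (↥W → Fin 3)),
        ∑ ω ∈ (Finset.univ : Finset ↥(Z.powerset)) with r ω = f, Real.exp (g ω)
          ≤ (2 : ℝ) ^ Z.card := by
      intro f _
      rcases (Finset.filter (fun ω => r ω = f)
        (Finset.univ : Finset ↥(Z.powerset))).eq_empty_or_nonempty with h | ⟨ω₀, h⟩
      · rw [h, sum_empty]
        positivity
      · have h0 : r ω₀ = f := (mem_filter.1 h).2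
        refine le_trans ?_ (hone ω₀)
        have h2 : ∀ ω ∈ Finset.filter (fun ω => r ω = f) (Finset.univ : Finset ↥(Z.powerset)),
            Real.exp (g ω)
              = Real.exp (∑ x ∈ Z \ W, (v x ω₀ * χ x ω - v x ω₀ ^ 2 / 2)) := by
          intro ω hω
          have h3 : r ω = r ω₀ := ((mem_filter.1 hω).2).trans h0.symm
          refine congrArg Real.exp (sum_congr rfl fun x _ => ?_)
          have h4 : v x ω = v x ω₀ := hv x ω₀ ω fun y hy => congrFun h3 ⟨y, hy⟩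
          rw [h4]
        rw [sum_congr rfl h2]
        exact sum_le_sum_of_subset_of_nonneg (filter_subset _ _)
          fun _ _ _ => (Real.exp_pos _).le
    refine le_trans (sum_le_sum h1) (le_of_eq ?_)
    rw [sum_const, card_univ, Fintype.card_fun, Fintype.card_fin, Fintype.card_coe,
      nsmul_eq_mul]
    push_cast
    rfl
  -- the mean of the exponent
  have hfin : ∑ ω : ↥(Z.powerset), g ω ≤ (5 / 4 : ℝ) * W.card * (2 : ℝ) ^ Z.card := by
    have h1 : ∀ ω : ↥(Z.powerset), g ω - 5 / 4 * W.card + 1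
        ≤ Real.exp (g ω) * Real.exp (-(5 / 4 * (W.card : ℝ))) := by
      intro ω
      rw [← Real.exp_add]
      have := Real.add_one_le_exp (g ω + -(5 / 4 * (W.card : ℝ)))
      linarith
    have h2 := sum_le_sum fun ω (_ : ω ∈ (Finset.univ : Finset ↥(Z.powerset))) => h1 ω
    rw [sum_add_distrib, sum_sub_distrib, sum_const, sum_const, ← sum_mul, card_univ,
      nsmul_eq_mul, nsmul_eq_mul, hcard, mul_one] at h2
    have h3 : (3 : ℝ) ^ W.card * Real.exp (-(5 / 4 * (W.card : ℝ))) ≤ 1 := by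
      have h4 : Real.exp (5 / 4 * (W.card : ℝ)) = Real.exp (5 / 4) ^ W.card := by
        rw [mul_comm, Real.exp_nat_mul]
      have h5 : (3 : ℝ) ^ W.card ≤ Real.exp (5 / 4 * (W.card : ℝ)) := by
        rw [h4]
        exact pow_le_pow_left₀ (by norm_num) fresh_exp _
      have h6 : Real.exp (5 / 4 * (W.card : ℝ)) * Real.exp (-(5 / 4 * (W.card : ℝ))) = 1 := by
        rw [← Real.exp_add]
        simp
      calc (3 : ℝ) ^ W.card * Real.exp (-(5 / 4 * (W.card : ℝ)))
          ≤ Real.exp (5 / 4 * (W.card : ℝ)) * Real.exp (-(5 / 4 * (W.card : ℝ))) :=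
            mul_le_mul_of_nonneg_right h5 (Real.exp_pos _).le
        _ = 1 := h6
    have h7 : (∑ ω : ↥(Z.powerset), Real.exp (g ω)) * Real.exp (-(5 / 4 * (W.card : ℝ)))
        ≤ (2 : ℝ) ^ Z.card := by
      calc (∑ ω : ↥(Z.powerset), Real.exp (g ω)) * Real.exp (-(5 / 4 * (W.card : ℝ)))
          ≤ ((3 : ℝ) ^ W.card * (2 : ℝ) ^ Z.card) * Real.exp (-(5 / 4 * (W.card : ℝ))) :=
            mul_le_mul_of_nonneg_right hall (Real.exp_pos _).le
        _ = ((3 : ℝ) ^ W.card * Real.exp (-(5 / 4 * (W.card : ℝ)))) * (2 : ℝ) ^ Z.card := by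
            ring
        _ ≤ 1 * (2 : ℝ) ^ Z.card := mul_le_mul_of_nonneg_right h3 (by positivity)
        _ = (2 : ℝ) ^ Z.card := one_mul _
    linarith
  rw [hg] at hfin
  rw [hcard]
  show ∑ x ∈ Z \ W, ∑ ω : ↥(Z.powerset), v x ω ^ 2 ≤ _
  linarith

end Pool.Agent.Helper34.PN
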